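import Pool.Agent.AEC.StmtsS

/-!
# Squad AEC, row S_SVC: the vertices of large valency do not grow
-/

set_option autoImplicit false

open FirstOrder FirstOrder.Language Cardinal Set

universe u

namespace Pool.Agent.AEC.H45

open Pool.Agent.AEC Pool.Agent.AEC.S

/-- embeddings preserve adjacency -/
theorem adj_emb {L : FirstOrder.Language.{u, u}} {M N : Type u} [L.Structure M] [L.Structure N]
    (f : M ↪[L] N) {x y : M} (h : adj L x y) : adj L (f x) (f y) := by
  obtain ⟨hne, n, R, v, hv, ⟨i, hi⟩, j, hj⟩ := h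
  refine ⟨fun h => hne (f.injective h), n, R, f ∘ v, (f.map_rel R v).2 hv, ⟨i, ?_⟩, j, ?_⟩
  · show f (v i) = f x
    rw [hi]
  · show f (v j) = f y
    rw [hj]

/-- Row S_SVC. -/
theorem s_svc (bgr : BgrStmt.{u}) (wgr : WgrStmt.{u}) (aut : AutStmt.{u}) (typ : TypStmt.{u}) :
    SvcStmt.{u} := by
  intro L _ κ K τ l hl M N f hM hN
  obtain ⟨hOK, hs, hcat⟩ := hl
  have hκl : κ < l := Order.succ_le_iff.1 hs
  refine bgr L κ K l (fun B => Sv L κ B.α) hs hcat ?_ ?_ ?_ M N f hM hN
  · intro A hA
    have hT : #(l.out) = l := Cardinal.mk_out l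
    obtain ⟨e⟩ := (typ L κ K τ hOK).2 l hκl hcat A l.out hA hT
    have h1 := (aut L κ (W τ l.out) A.α e).2.1
    have h2 := (wgr L κ τ l.out K.aleph0_le (by rw [hT]; exact hκl)).1
    show #(Sv L κ A.α) ≤ κ
    rw [← h1]
    refine (Cardinal.mk_image_le).trans (le_trans ?_ τ.card)
    refine Cardinal.mk_le_of_injective (f := fun x : Sv L κ (W τ l.out) => x.1.pr) ?_
    rintro ⟨x, hx⟩ ⟨y, hy⟩ h
    have hx1 := ((h2 x).1 hx).1
    have hy1 := ((h2 y).1 hy).1
    have h3 : x.pr = y.pr := h
    apply Subtype.ext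
    rcases x with x | x
    · rcases y with y | y
      · have h4 : x.1 = y.1 := h3
        show (Sum.inl x : W τ l.out) = Sum.inl y
        rw [Subtype.ext h4]
      · have h5 : some y.1 = none := hy1
        exact absurd h5 (Option.some_ne_none _)
    · have h5 : some x.1 = none := hx1
      exact absurd h5 (Option.some_ne_none _)
  · intro A B e _
    exact (aut L κ A.α B.α e).2.1
  · rintro A B g _ _ _ ⟨x, hx, rfl⟩
    have hx' : κ < #{y : A.α // adj L x y} := hx
    show κ < #{y : B.α // adj L (g x) y}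
    refine hx'.trans_le ?_
    refine Cardinal.mk_le_of_injective
      (f := fun y : {y : A.α // adj L x y} => (⟨g y.1, adj_emb g.toEmb y.2⟩ :
        {y : B.α // adj L (g x) y})) ?_
    intro y y' h
    apply Subtype.ext
    apply g.injective
    exact congrArg Subtype.val h

end Pool.Agent.AEC.H45
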