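import Pool.Agent.AEC.StmtsB
import Pool.Agent.AEC.StmtsZ

/-!
# Squad AEC, row UNZ: unions of chains of diagrams
-/

open FirstOrder FirstOrder.Language Cardinal Set

universe u

namespace Pool.Agent.AEC.H45

open Pool.Agent.AEC

/-- Row UNZ. -/
theorem unz (exr : ExrStmt.{u}) (dlm : DlmStmt.{u}) : UnzStmt.{u} := by
  intro L κ K Ω J _ _ D hD i₀
  classical
  have hP : ∀ i, Nonempty (K.Plc (D i)) := by
    intro i
    obtain ⟨P, -, -, -⟩ := hD i i le_rfl
    exact ⟨P⟩
  obtain ⟨P, -⟩ : ∃ P : ∀ i, K.Plc (D i), True := ⟨fun i => Classical.choice (hP i), trivial⟩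
  have hm : ∀ i j, i ≤ j → ∃ f : K.Hom (P i).A (P j).A, ∀ x, (P j).φ (f x) = (P i).φ x :=
    fun i j h => (exr L κ K Ω).1 _ _ (hD i j h) (P i) (P j)
  choose m hm using hm
  obtain ⟨G, s, hs1, hs2⟩ := dlm L κ K J (fun i => (P i).A) m
    (fun i x => (P i).inj (hm i i le_rfl x))
    (fun i j k hij hjk x => (P k).inj (by rw [hm, hm, hm]))
  have wd : ∀ i j x x', s i x = s j x' ↔ (P i).φ x = (P j).φ x' := by
    intro i j x x'
    have h1 : i ≤ max i j := le_max_left i j
    have h2 : j ≤ max i j := le_max_right i j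
    rw [← hs1 i (max i j) h1 x, ← hs1 j (max i j) h2 x', ← hm i (max i j) h1 x,
      ← hm j (max i j) h2 x']
    constructor
    · intro h
      rw [(s (max i j)).injective h]
    · intro h
      rw [(P (max i j)).inj h]
  choose a b hab using hs2
  obtain ⟨Φ, hΦ⟩ : ∃ Φ : G.α → Ω, ∀ y, Φ y = (P (a y)).φ (b y) := ⟨_, fun _ => rfl⟩
  have hΦs : ∀ i x, Φ (s i x) = (P i).φ x := by
    intro i x
    rw [hΦ]
    exact (wd _ _ _ _).1 (hab _)
  have hinj : Function.Injective Φ := by
    intro y y' h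
    rw [hΦ, hΦ] at h
    rw [← hab y, ← hab y']
    exact (wd _ _ _ _).2 h
  -- a finite tuple comes from one member
  have htup : ∀ {n : ℕ} (y : Fin n → G.α), ∃ (j : J) (z : Fin n → (P j).A.α),
      ∀ i, s j (z i) = y i := by
    intro n y
    obtain ⟨j, hj⟩ := Finite.exists_le (fun i => a (y i))
    refine ⟨j, fun i => m _ j (hj i) (b (y i)), fun i => ?_⟩
    rw [hs1, hab]
  have hdg : dg (L := L) G.α Φ = ⋃ j, D j := by
    have hDj : ∀ j, D j = dg (L := L) (P j).A.α (P j).φ := fun j => (P j).eq.symm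
    ext F
    rw [mem_iUnion]
    constructor
    · intro hF
      cases F with
      | el x =>
        obtain ⟨y, hy⟩ := hF
        refine ⟨a y, ?_⟩
        rw [hDj]
        exact ⟨b y, by rw [← hy, hΦ]⟩
      | rel n R x =>
        obtain ⟨y, hR, hy⟩ := hF
        obtain ⟨j, z, hz⟩ := htup y
        refine ⟨j, ?_⟩
        rw [hDj]
        refine ⟨z, ?_, fun i => ?_⟩
        · rw [← (s j).toEmb.map_rel R z]
          have h1 : ((s j).toEmb ∘ z : Fin n → G.α) = y := funext hz
          rw [h1]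
          exact hR
        · rw [← hy i, ← hz i, hΦs]
      | fn n f x c =>
        obtain ⟨y, hy, hc⟩ := hF
        obtain ⟨j, z, hz⟩ := htup y
        refine ⟨j, ?_⟩
        rw [hDj]
        refine ⟨z, fun i => ?_, ?_⟩
        · rw [← hy i, ← hz i, hΦs]
        · rw [← hΦs, ← hc]
          congr 1
          have h1 : ((s j).toEmb ∘ z : Fin n → G.α) = y := funext hz
          have h2 := (s j).toEmb.map_fun f z
          rw [h1] at h2
          exact h2
    · rintro ⟨j, hF⟩
      rw [hDj] at hF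
      cases F with
      | el x =>
        obtain ⟨y, hy⟩ := hF
        exact ⟨s j y, by rw [hΦs, hy]⟩
      | rel n R x =>
        obtain ⟨y, hR, hy⟩ := hF
        refine ⟨(s j).toEmb ∘ y, ?_, fun i => ?_⟩
        · rw [(s j).toEmb.map_rel R y]
          exact hR
        · rw [← hy i]
          exact hΦs j (y i)
      | fn n f x c =>
        obtain ⟨y, hy, hc⟩ := hF
        refine ⟨(s j).toEmb ∘ y, fun i => ?_, ?_⟩
        · rw [← hy i]
          exact hΦs j (y i)
        · rw [← (s j).toEmb.map_fun f y, ← hc]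
          exact hΦs j _
  exact ⟨P i₀, ⟨G, Φ, hinj, hdg⟩, s i₀, hΦs i₀⟩

end Pool.Agent.AEC.H45
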